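import Pool.Agent.LibMP916a8b.Limit

/-!
# A graph property whose Harary polynomial is almost complete for `G(n, 1/2)`

We prove that there is a graph property `P` such that the Harary polynomial of `P` is almost
complete for `G(n, 1/2)`.  This is the negated form of question Q1.
-/

namespace Pool.Agent.Results.MP_916a8b_co.AlmostCompleteHarary

open Polynomial Filter Topology

/-- A *graph property*: a predicate on simple graphs which is closed under isomorphism.
(Only its values on finite graphs matter below.) -/
def IsGraphProperty (P : ∀ V : Type, SimpleGraph V → Prop) : Prop :=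
  ∀ (V W : Type) (G : SimpleGraph V) (H : SimpleGraph W), Nonempty (G ≃g H) → P V G → P W H

/-- `hararyCount P G i` is the number of `P`-partitions of `G` with exactly `i` blocks, i.e. of
partitions of the vertex set into exactly `i` nonempty blocks `B` such that every induced
subgraph `G[B]` has the property `P`. -/
noncomputable def hararyCount (P : ∀ V : Type, SimpleGraph V → Prop) {n : ℕ}
    (G : SimpleGraph (Fin n)) (i : ℕ) : ℕ :=
  Nat.card {π : Finpartition (Finset.univ : Finset (Fin n)) //
    π.parts.card = i ∧
      ∀ B ∈ π.parts, P {x : Fin n // x ∈ B} (G.induce {x : Fin n | x ∈ B})}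

/-- The Harary polynomial `∑ i, h_i(G) * k (k - 1) ⋯ (k - i + 1)`, as a polynomial in `k`. -/
noncomputable def hararyPoly (P : ∀ V : Type, SimpleGraph V → Prop) {n : ℕ}
    (G : SimpleGraph (Fin n)) : ℤ[X] :=
  ∑ i ∈ Finset.range (n + 1), (hararyCount P G i : ℤ) • descPochhammer ℤ i

/-- `G` is unique for the Harary polynomial of `P`: every finite graph with the same Harary
polynomial is isomorphic to `G`. -/
def HararyUnique (P : ∀ V : Type, SimpleGraph V → Prop) {n : ℕ} (G : SimpleGraph (Fin n)) : Prop :=
  ∀ (m : ℕ) (H : SimpleGraph (Fin m)), hararyPoly P H = hararyPoly P G → Nonempty (G ≃g H)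

/-- The Harary polynomial of `P` is almost complete for `G(n, 1/2)`: the proportion of labelled
graphs on `Fin n` that are unique for it tends to `1`. -/
def AlmostComplete (P : ∀ V : Type, SimpleGraph V → Prop) : Prop :=
  Tendsto (fun n : ℕ =>
    (Nat.card {G : SimpleGraph (Fin n) // HararyUnique P G} : ℝ) / 2 ^ (n.choose 2)) atTop (𝓝 1)

open Pool.Agent.LibMP916a8b Finset

/-- The property associated to a family of predicates on the canonical representatives. -/
def propOf (Q : ∀ m : ℕ, SimpleGraph (Fin m) → Prop) : ∀ V : Type, SimpleGraph V → Prop :=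
  fun V G => ∃ (m : ℕ) (F : SimpleGraph (Fin m)), Nonempty (G ≃g F) ∧ Q m (canon F)

theorem propOf_isGraphProperty (Q : ∀ m : ℕ, SimpleGraph (Fin m) → Prop) :
    IsGraphProperty (propOf Q) := by
  rintro V W G H ⟨e⟩ ⟨m, F, ⟨f⟩, hQ⟩
  exact ⟨m, F, ⟨e.symm.trans f⟩, hQ⟩

theorem propOf_iff (Q : ∀ m : ℕ, SimpleGraph (Fin m) → Prop) {n : ℕ} (G : SimpleGraph (Fin n))
    (B : Finset (Fin n)) :
    propOf Q {x : Fin n // x ∈ B} (G.induce {x : Fin n | x ∈ B}) ↔
      Q B.card (code B.card G B) := by
  constructor
  · rintro ⟨m, F, ⟨e⟩, hQ⟩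
    have hm : B.card = m := by
      have h := Fintype.card_congr e.toEquiv
      rw [Fintype.card_fin] at h
      rw [← h]
      symm
      exact Fintype.card_coe B
    subst hm
    have hcode : canon F = code B.card G B := by
      refine canon_eq_code rfl (ψ := fun i => (e.symm i : {x : Fin n | x ∈ B}).1) ?_ ?_
      · refine ⟨?_, ?_⟩
        · intro x _ y _ hxy
          exact e.symm.injective (Subtype.ext hxy)
        · intro x _ y _
          have h := e.symm.map_adj_iff (v := x) (w := y)
          rw [← h]
          rfl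
      · ext x
        simp only [mem_image, mem_univ, true_and]
        constructor
        · rintro ⟨i, rfl⟩
          exact (e.symm i).2
        · intro hx
          refine ⟨e ⟨x, hx⟩, ?_⟩
          rw [RelIso.symm_apply_apply]
    rw [← hcode]
    exact hQ
  · intro hQ
    refine ⟨B.card, code B.card G B, ?_, ?_⟩
    · obtain ⟨ψ, hψ, him⟩ := exists_code_emb G (A := B) (m := B.card) rfl
      have hmem : ∀ i, ψ i ∈ B := by
        intro i
        rw [← him]
        exact mem_image_of_mem _ (mem_univ _)
      let f : Fin B.card → {x : Fin n // x ∈ B} := fun i => ⟨ψ i, hmem i⟩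
      have hbij : Function.Bijective f := by
        constructor
        · intro i j hij
          have : ψ i = ψ j := congrArg Subtype.val hij
          exact hψ.1 (by simp) (by simp) this
        · rintro ⟨x, hx⟩
          have hx2 := hx
          rw [← him, mem_image] at hx2
          obtain ⟨i, _, hi⟩ := hx2
          exact ⟨i, Subtype.ext hi⟩
      have e : code B.card G B ≃g G.induce {x : Fin n | x ∈ B} :=
        ⟨Equiv.ofBijective f hbij, by
          intro a b
          exact hψ.2 a (mem_univ _) b (mem_univ _)⟩
      exact ⟨e.symm⟩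
    · rw [canon_code G rfl]
      exact hQ

theorem hararyCount_eq (Q : ∀ m : ℕ, SimpleGraph (Fin m) → Prop) {n : ℕ}
    (G : SimpleGraph (Fin n)) (i : ℕ) : hararyCount (propOf Q) G i = hcount Q G i := by
  classical
  unfold hararyCount hcount
  rw [Nat.card_eq_fintype_card, Fintype.card_subtype]
  congr 1
  ext π
  simp only [mem_filter, mem_univ, true_and, propOf_iff]

theorem hcount_zero_of_lt (Q : ∀ m : ℕ, SimpleGraph (Fin m) → Prop) {n : ℕ}
    (G : SimpleGraph (Fin n)) {i : ℕ} (hi : n < i) : hcount Q G i = 0 := by
  classical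
  unfold hcount
  rw [card_eq_zero]
  apply filter_false_of_mem
  intro π _ h
  have h1 : π.parts.card ≤ n := by
    have h2 := π.sum_card_parts
    rw [card_univ, Fintype.card_fin] at h2
    calc π.parts.card = ∑ B ∈ π.parts, 1 := card_eq_sum_ones _
      _ ≤ ∑ B ∈ π.parts, B.card := by
        apply Finset.sum_le_sum
        intro B hB
        exact (π.nonempty_of_mem_parts hB).card_pos
      _ = n := h2
  omega

theorem hcount_self_pos {Q : ∀ m : ℕ, SimpleGraph (Fin m) → Prop} (hQ : ∀ F, Q 1 F) {n : ℕ}
    (G : SimpleGraph (Fin n)) : 0 < hcount Q G n := by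
  classical
  unfold hcount
  rw [card_pos]
  refine ⟨⊥, ?_⟩
  rw [mem_filter]
  refine ⟨mem_univ _, ?_, ?_⟩
  · rw [Finpartition.parts_bot, card_map, card_univ, Fintype.card_fin]
  · intro B hB
    rw [Finpartition.parts_bot, Finset.mem_map] at hB
    obtain ⟨x, _, rfl⟩ := hB
    exact hQ _

/-- The Harary polynomial determines the counts. -/
theorem counts_eq_of_poly_eq {Q : ∀ m : ℕ, SimpleGraph (Fin m) → Prop} {n m : ℕ}
    {G : SimpleGraph (Fin n)} {H : SimpleGraph (Fin m)}
    (h : hararyPoly (propOf Q) H = hararyPoly (propOf Q) G) (i : ℕ) :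
    hcount Q H i = hcount Q G i := by
  -- extend both sums
  have hext : ∀ (k : ℕ) (K : SimpleGraph (Fin k)) (N : ℕ), k ≤ N →
      hararyPoly (propOf Q) K =
        ∑ i ∈ range (N + 1), (hcount Q K i : ℤ) • descPochhammer ℤ i := by
    intro k K N hkN
    unfold hararyPoly
    simp only [hararyCount_eq]
    apply Finset.sum_subset
    · intro j hj
      rw [mem_range] at hj ⊢
      omega
    · intro j _ hj
      rw [mem_range, not_lt] at hj
      rw [hcount_zero_of_lt Q K (by omega)]
      simp
  -- strong induction
  induction i using Nat.strong_induction_on with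
  | _ k ih =>
    have h1 := hext m H (max (max n m) k) ((le_max_right n m).trans (le_max_left _ _))
    have h2 := hext n G (max (max n m) k) ((le_max_left n m).trans (le_max_left _ _))
    rw [h1, h2] at h
    have heval := congrArg (fun p : ℤ[X] => p.eval (k : ℤ)) h
    simp only [eval_finset_sum, eval_smul, smul_eq_mul] at heval
    have hterm : ∀ j : ℕ, (descPochhammer ℤ j).eval (k : ℤ) = (k.descFactorial j : ℤ) := by
      intro j
      exact descPochhammer_eval_eq_descFactorial ℤ k j
    simp only [hterm] at heval
    have hk : k ∈ range (max (max n m) k + 1) := by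
      rw [mem_range]
      exact Nat.lt_succ_of_le (le_max_right _ _)
    rw [← Finset.add_sum_erase _ _ hk, ← Finset.add_sum_erase (range _)
      (fun x => (hcount Q G x : ℤ) * (k.descFactorial x : ℤ)) hk] at heval
    have hrest : ∑ x ∈ (range (max (max n m) k + 1)).erase k,
        (hcount Q H x : ℤ) * (k.descFactorial x : ℤ) =
        ∑ x ∈ (range (max (max n m) k + 1)).erase k,
        (hcount Q G x : ℤ) * (k.descFactorial x : ℤ) := by
      apply Finset.sum_congr rfl
      intro x hx
      rw [mem_erase] at hx
      rcases lt_or_gt_of_ne hx.1 with hlt | hgt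
      · rw [ih x hlt]
      · rw [Nat.descFactorial_eq_zero_iff_lt.2 hgt]
        simp
    rw [hrest] at heval
    have h3 := add_right_cancel heval
    have h4 : ((k.descFactorial k : ℕ) : ℤ) ≠ 0 := by
      rw [Nat.descFactorial_self]
      exact_mod_cast Nat.factorial_ne_zero k
    have h5 := mul_right_cancel₀ h4 h3
    exact_mod_cast h5

theorem unique_of_not_NU {Q : ∀ m : ℕ, SimpleGraph (Fin m) → Prop} (hQ : ∀ F, Q 1 F) {n : ℕ}
    {G : SimpleGraph (Fin n)} (h : ¬ NU Q G) : HararyUnique (propOf Q) G := by
  intro m H hpoly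
  have hc := counts_eq_of_poly_eq hpoly
  have hmn : m = n := by
    rcases lt_trichotomy m n with hlt | heq | hgt
    · have h1 := hc n
      rw [hcount_zero_of_lt Q H hlt] at h1
      have h2 := hcount_self_pos hQ G
      omega
    · exact heq
    · have h1 := hc m
      rw [hcount_zero_of_lt Q G hgt] at h1
      have h2 := hcount_self_pos hQ H
      omega
  subst hmn
  by_contra hcon
  exact h ⟨H, fun i => (hc i).symm, hcon⟩

/-- **There is a graph property whose Harary polynomial is almost complete for `G(n, 1/2)`.** -/
theorem result : ∃ P : ∀ V : Type, SimpleGraph V → Prop,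
    IsGraphProperty P ∧ AlmostComplete P := by
  classical
  obtain ⟨Q, hQ1, hQ⟩ := exists_property
  refine ⟨propOf Q, propOf_isGraphProperty Q, ?_⟩
  unfold AlmostComplete
  -- squeeze between `1 - 3 / n` and `1`
  have hlower : ∀ᶠ n : ℕ in atTop, 1 - 3 / (n : ℝ) ≤
      (Nat.card {G : SimpleGraph (Fin n) // HararyUnique (propOf Q) G} : ℝ) /
        2 ^ (n.choose 2) := by
    filter_upwards [eventually_ge_atTop n0] with n hn
    have hnN : 10 ^ 12 ≤ n := hn
    have hnpos : (0 : ℝ) < n := by
      have : 0 < n := by omega
      exact_mod_cast this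
    rw [le_div_iff₀ (by positivity)]
    have h1 : (Nat.card {G : SimpleGraph (Fin n) // HararyUnique (propOf Q) G}) =
        #{G : SimpleGraph (Fin n) | HararyUnique (propOf Q) G} := by
      rw [Nat.card_eq_fintype_card, Fintype.card_subtype]
    rw [h1]
    have h2 : #{G : SimpleGraph (Fin n) | HararyUnique (propOf Q) G} +
        #{G : SimpleGraph (Fin n) | NU Q G} ≥ 2 ^ (n.choose 2) := by
      rw [← card_graphs n, ← card_univ]
      have hcover : (univ : Finset (SimpleGraph (Fin n))) ⊆
          ({G : SimpleGraph (Fin n) | HararyUnique (propOf Q) G} : Finset _) ∪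
          ({G : SimpleGraph (Fin n) | NU Q G} : Finset _) := by
        intro G _
        rw [mem_union, mem_filter, mem_filter]
        by_cases h : NU Q G
        · exact Or.inr ⟨mem_univ _, h⟩
        · exact Or.inl ⟨mem_univ _, unique_of_not_NU hQ1 h⟩
      exact (card_le_card hcover).trans (card_union_le _ _)
    have h3 := hQ n hn
    have h2' : (2 : ℝ) ^ (n.choose 2) ≤
        (#{G : SimpleGraph (Fin n) | HararyUnique (propOf Q) G} : ℝ) +
        (#{G : SimpleGraph (Fin n) | NU Q G} : ℝ) := by exact_mod_cast h2
    have h3' : (n : ℝ) * (#{G : SimpleGraph (Fin n) | NU Q G} : ℝ) ≤ 3 * 2 ^ (n.choose 2) := by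
      exact_mod_cast h3
    have h4 : (#{G : SimpleGraph (Fin n) | NU Q G} : ℝ) ≤ 3 / n * 2 ^ (n.choose 2) := by
      rw [div_mul_eq_mul_div, le_div_iff₀ hnpos]
      linarith
    linarith
  have hupper : ∀ᶠ n : ℕ in atTop,
      (Nat.card {G : SimpleGraph (Fin n) // HararyUnique (propOf Q) G} : ℝ) /
        2 ^ (n.choose 2) ≤ 1 := by
    filter_upwards with n
    rw [div_le_one (by positivity)]
    have h1 : (Nat.card {G : SimpleGraph (Fin n) // HararyUnique (propOf Q) G}) ≤
        2 ^ (n.choose 2) := by
      rw [← card_graphs n, Nat.card_eq_fintype_card]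
      exact Fintype.card_subtype_le _
    exact_mod_cast h1
  have hlim : Tendsto (fun n : ℕ => 1 - 3 / (n : ℝ)) atTop (𝓝 1) := by
    have h1 : Tendsto (fun n : ℕ => 3 / (n : ℝ)) atTop (𝓝 0) :=
      tendsto_const_div_atTop_nhds_zero_nat 3
    have h2 := h1.const_sub 1
    simpa using h2
  exact tendsto_of_tendsto_of_tendsto_of_le_of_le' hlim tendsto_const_nhds hlower hupper

end Pool.Agent.Results.MP_916a8b_co.AlmostCompleteHarary
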